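import Pool.Agent.P8H39.TI.Stm2

/-!
# Project TI, package CHU (helper44)
-/

set_option autoImplicit false

namespace Pool.Agent.P8H44.TI

open Finset

theorem pascal (a : ℕ → ℝ) (t : ℕ) : ∑ b ∈ range (t + 2), ((t + 1).choose b : ℝ) * a b =
    ∑ b ∈ range (t + 1), (t.choose b : ℝ) * a b + ∑ b ∈ range (t + 1), (t.choose b : ℝ) * a (b + 1) := by
  rw [sum_range_succ' _ (t + 1)]
  have h1 : ∑ b ∈ range (t + 1), (t.choose b : ℝ) * a b =
      ∑ b ∈ range (t + 1), (t.choose (b + 1) : ℝ) * a (b + 1) + a 0 := by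
    have h2 : ∑ b ∈ range (t + 2), (t.choose b : ℝ) * a b =
        ∑ b ∈ range (t + 1), (t.choose b : ℝ) * a b := by
      rw [sum_range_succ, Nat.choose_succ_self]
      simp
    rw [← h2, sum_range_succ' _ (t + 1)]
    simp
  rw [h1]
  have h3 : ∑ b ∈ range (t + 1), ((t + 1).choose (b + 1) : ℝ) * a (b + 1) =
      ∑ b ∈ range (t + 1), (t.choose b : ℝ) * a (b + 1) +
        ∑ b ∈ range (t + 1), (t.choose (b + 1) : ℝ) * a (b + 1) := by
    rw [← sum_add_distrib]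
    apply sum_congr rfl
    intro b _
    rw [Nat.choose_succ_succ]
    push_cast
    ring
  rw [h3]
  simp
  ring

theorem bmul (a : ℕ → ℝ) (t : ℕ) : ∑ b ∈ range (t + 2), (b : ℝ) * (((t + 1).choose b : ℝ) * a b) =
    ((t : ℝ) + 1) * ∑ b ∈ range (t + 1), (t.choose b : ℝ) * a (b + 1) := by
  rw [sum_range_succ' _ (t + 1), mul_sum]
  simp only [Nat.cast_zero, zero_mul, add_zero]
  apply sum_congr rfl
  intro b _
  have h : ((t : ℝ) + 1) * (t.choose b : ℝ) = ((t + 1).choose (b + 1) : ℝ) * ((b : ℝ) + 1) := by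
    exact_mod_cast Nat.add_one_mul_choose_eq t b
  push_cast
  linear_combination (-(a (b + 1))) * h

theorem shift (κ N b : ℕ) (hN : 1 ≤ N) :
    (κ.descFactorial (b + 1) : ℝ) / (N.ascFactorial (b + 1) : ℝ) =
      (κ : ℝ) / N * (((κ - 1).descFactorial b : ℝ) / ((N + 1).ascFactorial b : ℝ)) := by
  have h1 : N.ascFactorial (b + 1) = N * (N + 1).ascFactorial b := by
    rw [Nat.ascFactorial_succ]
    exact (Nat.succ_ascFactorial N b).symm
  have h2 : κ.descFactorial (b + 1) = κ * (κ - 1).descFactorial b := by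
    rcases κ with _ | κ
    · rw [Nat.zero_descFactorial_succ, zero_mul]
    · rw [Nat.succ_descFactorial_succ, Nat.add_sub_cancel]
  rw [h1, h2]
  push_cast
  rw [mul_div_mul_comm]

/-- the product on the right -/
theorem prod_shift (t κ N : ℕ) (hN : 1 ≤ N) (hκ : 1 ≤ κ) :
    (∏ u ∈ range t, (((N + 1 : ℕ) : ℝ) + ((κ - 1 : ℕ) : ℝ) + u) / (((N + 1 : ℕ) : ℝ) + u)) *
      ((N : ℝ) + t) = N * ∏ u ∈ range t, ((N : ℝ) + κ + u) / ((N : ℝ) + u) := by
  have hN0 : (0 : ℝ) < N := by exact_mod_cast hN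
  induction t with
  | zero => simp
  | succ t ih =>
    rw [prod_range_succ, prod_range_succ]
    have h1 : (0 : ℝ) < (N : ℝ) + t := by positivity
    have h2 : (0 : ℝ) < (N : ℝ) + 1 + t := by positivity
    have h3 : ((κ - 1 : ℕ) : ℝ) = κ - 1 := by
      rw [Nat.cast_sub hκ]
      simp
    have h4 : (((N + 1 : ℕ) : ℝ) + ((κ - 1 : ℕ) : ℝ) + t) / (((N + 1 : ℕ) : ℝ) + t) *
        ((N : ℝ) + (t + 1 : ℕ)) = (N : ℝ) + κ + t := by
      rw [h3]
      push_cast
      field_simp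
      ring
    rw [mul_assoc, h4]
    have h5 : ((N : ℝ) + t) * (((N : ℝ) + κ + t) / ((N : ℝ) + t)) = (N : ℝ) + κ + t := by
      field_simp
    obtain ⟨w, hw⟩ : ∃ w, w = ((N : ℝ) + κ + t) / ((N : ℝ) + t) := ⟨_, rfl⟩
    rw [← hw] at h5 ⊢
    rw [← h5, ← mul_assoc, ih, mul_assoc]

theorem chu1 (t : ℕ) : ∀ (κ N : ℕ), 1 ≤ N →
    ∑ b ∈ range (t + 1), (t.choose b : ℝ) * ((κ.descFactorial b : ℝ) / (N.ascFactorial b : ℝ)) =
      ∏ u ∈ range t, ((N : ℝ) + κ + u) / ((N : ℝ) + u) := by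
  induction t with
  | zero => intro κ N _; simp
  | succ t ih =>
    intro κ N hN
    have hN0 : (0 : ℝ) < N := by exact_mod_cast hN
    have ht : (0 : ℝ) < (N : ℝ) + t := by positivity
    rw [pascal (fun b => (κ.descFactorial b : ℝ) / (N.ascFactorial b : ℝ)) t, ih κ N hN,
      prod_range_succ]
    have h1 : ∑ b ∈ range (t + 1), (t.choose b : ℝ) *
        ((κ.descFactorial (b + 1) : ℝ) / (N.ascFactorial (b + 1) : ℝ)) =
        (κ : ℝ) / N * ∏ u ∈ range t, (((N + 1 : ℕ) : ℝ) + ((κ - 1 : ℕ) : ℝ) + u) /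
          (((N + 1 : ℕ) : ℝ) + u) := by
      rw [← ih (κ - 1) (N + 1) (by omega), mul_sum]
      apply sum_congr rfl
      intro b _
      rw [shift κ N b hN]
      ring
    rw [h1]
    rcases Nat.eq_zero_or_pos κ with rfl | hκ
    · simp
      field_simp
    · have h2 := prod_shift t κ N hN hκ
      obtain ⟨Q, hQ⟩ : ∃ Q, Q = ∏ u ∈ range t, (((N + 1 : ℕ) : ℝ) + ((κ - 1 : ℕ) : ℝ) + u) /
          (((N + 1 : ℕ) : ℝ) + u) := ⟨_, rfl⟩
      obtain ⟨P, hP⟩ : ∃ P, P = ∏ u ∈ range t, ((N : ℝ) + κ + u) / ((N : ℝ) + u) := ⟨_, rfl⟩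
      rw [← hQ, ← hP] at h2 ⊢
      have h3 : Q = N * P / (N + t) := by
        rw [eq_div_iff ht.ne', h2]
      rw [h3]
      field_simp
      ring

theorem t_CHU : Pool.Agent.P8H39.TI.S_CHU := by
  have key : ∀ (t κ N b : ℕ), (t.choose b : ℝ) * (κ.descFactorial b : ℝ) / (N.ascFactorial b : ℝ) =
      (t.choose b : ℝ) * ((κ.descFactorial b : ℝ) / (N.ascFactorial b : ℝ)) := by
    intro t κ N b
    rw [mul_div_assoc]
  constructor
  · intro t κ N hN
    rw [← chu1 t κ N hN]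
    exact sum_congr rfl fun b _ => key t κ N b
  · intro t κ N hN
    simp_rw [key]
    rcases t with _ | t
    · simp
    · have hN0 : (0 : ℝ) < N := by exact_mod_cast hN
      rw [bmul (fun b => (κ.descFactorial b : ℝ) / (N.ascFactorial b : ℝ)) t]
      have h1 : ∑ b ∈ range (t + 1), (t.choose b : ℝ) *
          ((κ.descFactorial (b + 1) : ℝ) / (N.ascFactorial (b + 1) : ℝ)) =
          (κ : ℝ) / N * ∏ u ∈ range t, (((N + 1 : ℕ) : ℝ) + ((κ - 1 : ℕ) : ℝ) + u) /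
            (((N + 1 : ℕ) : ℝ) + u) := by
        rw [← chu1 t (κ - 1) (N + 1) (by omega), mul_sum]
        apply sum_congr rfl
        intro b _
        rw [shift κ N b hN]
        ring
      rw [h1, prod_range_succ]
      rcases Nat.eq_zero_or_pos κ with rfl | hκ
      · simp
      · have h2 := prod_shift t κ N hN hκ
        have ht : (0 : ℝ) < (N : ℝ) + t := by positivity
        obtain ⟨Q, hQ⟩ : ∃ Q, Q = ∏ u ∈ range t, (((N + 1 : ℕ) : ℝ) + ((κ - 1 : ℕ) : ℝ) + u) /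
            (((N + 1 : ℕ) : ℝ) + u) := ⟨_, rfl⟩
        obtain ⟨P, hP⟩ : ∃ P, P = ∏ u ∈ range t, ((N : ℝ) + κ + u) / ((N : ℝ) + u) := ⟨_, rfl⟩
        rw [← hQ, ← hP] at h2 ⊢
        have h3 : Q = N * P / (N + t) := by
          rw [eq_div_iff ht.ne', h2]
        rw [h3]
        push_cast
        field_simp
        ring

end Pool.Agent.P8H44.TI
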